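import Pool.Agent.H.MP_e6b4fa_co.D

/-! The least `H`-discrepancy of an `n`-vertex graph has order `n ^ (v(H) - 1/2)`. -/

namespace Pool.Agent.Results.MP_e6b4fa_co.Order
open Pool.Agent.H.MP_e6b4fa_co Finset

/-- The `H`-discrepancy of `G`: the largest value, over vertex sets `S`, of the absolute difference
between the numbers of subgraphs isomorphic to `H` in `G[S]` and in its complement. -/
noncomputable def disc {k n : ℕ} (H : SimpleGraph (Fin k)) (G : SimpleGraph (Fin n)) : ℕ :=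
  univ.sup fun S : Finset (Fin n) =>
    (((G.induce S).copyCount H : ℤ) - ((G.induce S)ᶜ.copyCount H : ℤ)).natAbs

/-- The least `H`-discrepancy of a graph on `n` vertices. -/
noncomputable def f {k : ℕ} (H : SimpleGraph (Fin k)) (n : ℕ) : ℕ :=
  ⨅ G : SimpleGraph (Fin n), disc H G

lemma aut {k : ℕ} (H : SimpleGraph (Fin k)) : (1 : ℝ) ≤ Nat.card (H ≃g H) := by
  have : Finite (H ≃g H) := Finite.of_injective _ DFunLike.coe_injective
  exact_mod_cast Nat.card_pos

lemma key {k n : ℕ} (H : SimpleGraph (Fin k)) (G : SimpleGraph (Fin n)) (S : Finset (Fin n)) :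
    |tot (wt H G) S| = Nat.card (H ≃g H) *
      ((((G.induce S).copyCount H : ℤ) - ((G.induce S)ᶜ.copyCount H : ℤ)).natAbs : ℝ) := by
  simp [link, abs_mul, Nat.cast_natAbs]

lemma fle {k n : ℕ} (H : SimpleGraph (Fin k)) (G : SimpleGraph (Fin n)) : f H n ≤ disc H G :=
  Nat.sInf_le ⟨G, rfl⟩

theorem result (k : ℕ) (H : SimpleGraph (Fin k)) :
    (H = ⊥ → ∀ n, f H n = 0) ∧
    (H ≠ ⊥ → ∃ c C : ℝ, 0 < c ∧ ∃ N : ℕ, ∀ n ≥ N,
      c * (n : ℝ) ^ ((k : ℝ) - 1 / 2) ≤ f H n ∧ f H n ≤ C * (n : ℝ) ^ ((k : ℝ) - 1 / 2)) := by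
  have a := aut H
  refine ⟨fun e n => Nat.le_zero.mp ((fle H ⊥).trans (Finset.sup_le fun S _ => ?_)),
    fun h => ?_⟩
  · have := key H (⊥ : SimpleGraph (Fin n)) S
    rw [show tot _ S = 0 by simp [tot, wt, emb, e], abs_zero, eq_comm, mul_eq_zero] at this
    exact_mod_cast (this.resolve_left (by linarith)).le
  obtain ⟨c, c0, N, hc⟩ := lower h
  have k0 : 0 < k := (SimpleGraph.ne_bot_iff_exists_adj.mp h).elim fun i _ => i.pos
  refine ⟨c / Nat.card (H ≃g H), 6 * k ^ 2, by positivity, N + 1, fun n hn => ?_⟩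
  have n0 : (0 : ℝ) < n := by exact_mod_cast (by omega : 0 < n)
  have s0 := Real.sqrt_pos.mpr n0
  rw [Real.rpow_sub n0, Real.rpow_natCast, ← Real.sqrt_eq_rpow]
  constructor
  · obtain ⟨G, e⟩ : ∃ G : SimpleGraph (Fin n), disc H G = f H n := Nat.sInf_mem (Set.range_nonempty _)
    have := hc (Fin n) G (Nat.card (H ≃g H) * disc H G) (by simp; omega) fun S => by
      rw [key]
      gcongr
      exact Finset.le_sup (f := fun S : Finset (Fin n) => (((G.induce S).copyCount H : ℤ) -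
        ((G.induce S)ᶜ.copyCount H : ℤ)).natAbs) (mem_univ S)
    rw [Fintype.card_fin, e] at this
    rw [div_mul_div_comm, div_le_iff₀ (by positivity)]
    linarith
  · obtain ⟨G, e⟩ := upper (V := Fin n) H k0 (by simp; omega)
    obtain ⟨S, -, hS⟩ := exists_mem_eq_sup univ univ_nonempty fun S : Finset (Fin n) =>
      (((G.induce S).copyCount H : ℤ) - ((G.induce S)ᶜ.copyCount H : ℤ)).natAbs
    have h1 : (f H n : ℝ) ≤ |tot (wt H G) S| := by
      rw [key, ← hS]
      exact le_trans (Nat.cast_le.mpr (fle H G))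
        (le_mul_of_one_le_left (Nat.cast_nonneg _) a)
    have h2 := (mul_le_mul_of_nonneg_left h1 n0.le).trans (Fintype.card_fin n ▸ e S)
    rw [← mul_div_assoc, le_div_iff₀ s0]
    refine le_of_mul_le_mul_left ?_ s0
    rw [mul_left_comm, Real.mul_self_sqrt n0.le]
    linarith

end Pool.Agent.Results.MP_e6b4fa_co.Order
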